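import Pool.Agent.Q66.SH.Stm2

/-!
# Operators with a Schmidt decomposition are compact
-/

set_option autoImplicit false

open Filter Topology
open scoped ENNReal

namespace Q130.SH.CPT

open Pool.Agent.Q66.SH

section
variable {H : Type} [NormedAddCommGroup H] [InnerProductSpace ℂ H]

lemma rk1_compact (u v : H) : IsCompactOperator (rk1 u v) := by
  have h1 : IsCompactOperator (innerSL ℂ u : H →L[ℂ] ℂ) :=
    isCompactOperator_of_locallyCompactSpace_dom (innerSL ℂ u : H →L[ℂ] ℂ)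
  have h2 := h1.clm_comp (ContinuousLinearMap.toSpanSingleton ℂ v)
  have h3 : (rk1 u v : H → H) = (ContinuousLinearMap.toSpanSingleton ℂ v) ∘ (innerSL ℂ u : H →L[ℂ] ℂ) := by
    ext x
    simp [rk1, ContinuousLinearMap.toSpanSingleton_apply]
  rw [h3]
  exact h2

lemma norm_sum_le {e f : ℕ → H} (he : Orthonormal ℂ e) (hf : Orthonormal ℂ f) {s : ℕ → ℝ}
    (hs0 : ∀ j, 0 ≤ s j) {c : ℝ} (t : Finset ℕ) (hc : ∀ j ∈ t, s j ≤ c) (hc0 : 0 ≤ c) (x : H) :
    ‖∑ j ∈ t, ((s j : ℂ) * inner ℂ (e j) x) • f j‖ ≤ c * ‖x‖ := by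
  rw [← sq_le_sq₀ (norm_nonneg _) (mul_nonneg hc0 (norm_nonneg _))]
  have h1 : ‖∑ j ∈ t, ((s j : ℂ) * inner ℂ (e j) x) • f j‖ ^ 2 =
      ∑ j ∈ t, s j ^ 2 * ‖inner ℂ (e j) x‖ ^ 2 := by
    have h := hf.inner_sum (fun j => (s j : ℂ) * inner ℂ (e j) x)
      (fun j => (s j : ℂ) * inner ℂ (e j) x) t
    rw [inner_self_eq_norm_sq_to_K] at h
    have h2 : ∀ j ∈ t, (starRingEnd ℂ) ((s j : ℂ) * inner ℂ (e j) x) * ((s j : ℂ) * inner ℂ (e j) x) =
        ((s j ^ 2 * ‖inner ℂ (e j) x‖ ^ 2 : ℝ) : ℂ) := by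
      intro j _
      rw [Complex.conj_mul', norm_mul, Complex.norm_real, Real.norm_eq_abs, ← Complex.ofReal_pow,
        mul_pow, sq_abs]
    rw [Finset.sum_congr rfl h2] at h
    have h3 : ((‖∑ j ∈ t, ((s j : ℂ) * inner ℂ (e j) x) • f j‖ ^ 2 : ℝ) : ℂ) =
        ((∑ j ∈ t, s j ^ 2 * ‖inner ℂ (e j) x‖ ^ 2 : ℝ) : ℂ) := by
      rw [Complex.ofReal_sum]
      rw [← h]
      simp
    exact_mod_cast h3
  rw [h1, mul_pow]
  calc ∑ j ∈ t, s j ^ 2 * ‖inner ℂ (e j) x‖ ^ 2 ≤ ∑ j ∈ t, c ^ 2 * ‖inner ℂ (e j) x‖ ^ 2 := by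
        apply Finset.sum_le_sum
        intro j hj
        exact mul_le_mul_of_nonneg_right (pow_le_pow_left₀ (hs0 j) (hc j hj) 2) (sq_nonneg _)
    _ = c ^ 2 * ∑ j ∈ t, ‖inner ℂ (e j) x‖ ^ 2 := by rw [Finset.mul_sum]
    _ ≤ c ^ 2 * ‖x‖ ^ 2 := mul_le_mul_of_nonneg_left (he.sum_inner_products_le x) (sq_nonneg _)

/-- the finite rank approximations -/
noncomputable def FR (e f : ℕ → H) (s : ℕ → ℝ) (n : ℕ) : H →L[ℂ] H :=
  ∑ j ∈ Finset.range n, (s j : ℂ) • rk1 (e j) (f j)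

lemma FR_apply (e f : ℕ → H) (s : ℕ → ℝ) (n : ℕ) (x : H) :
    FR e f s n x = ∑ j ∈ Finset.range n, ((s j : ℂ) * inner ℂ (e j) x) • f j := by
  rw [FR, sum_apply]
  apply Finset.sum_congr rfl
  intro j _
  change (s j : ℂ) • (inner ℂ (e j) x • f j) = _
  rw [smul_smul]

lemma FR_compact (e f : ℕ → H) (s : ℕ → ℝ) (n : ℕ) : IsCompactOperator (FR e f s n) := by
  induction n with
  | zero =>
    have : (FR e f s 0 : H → H) = 0 := by
      ext x
      simp [FR_apply]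
    rw [this]
    exact isCompactOperator_zero
  | succ n ih =>
    have : (FR e f s (n + 1) : H → H) = FR e f s n + (s n : ℂ) • (rk1 (e n) (f n) : H → H) := by
      ext x
      simp [FR, Finset.sum_range_succ]
    rw [this]
    exact ih.add ((rk1_compact _ _).smul _)

lemma norm_sub_FR {T : H →L[ℂ] H} {e f : ℕ → H} (he : Orthonormal ℂ e) (hf : Orthonormal ℂ f)
    {s : ℕ → ℝ} (ha : Antitone s) (hs0 : ∀ j, 0 ≤ s j)
    (hT : ∀ x, HasSum (fun j => ((s j : ℂ) * inner ℂ (e j) x) • f j) (T x)) (n : ℕ) :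
    ‖T - FR e f s n‖ ≤ s n := by
  apply ContinuousLinearMap.opNorm_le_bound _ (hs0 n)
  intro x
  have h1 := ((hT x).tendsto_sum_nat.sub_const (FR e f s n x)).norm
  rw [sub_apply]
  apply le_of_tendsto h1
  filter_upwards [eventually_ge_atTop n] with N hN
  have h2 : ∑ j ∈ Finset.range N, ((s j : ℂ) * inner ℂ (e j) x) • f j - FR e f s n x =
      ∑ j ∈ Finset.Ico n N, ((s j : ℂ) * inner ℂ (e j) x) • f j := by
    rw [FR_apply, Finset.sum_Ico_eq_sub _ hN]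
  rw [h2]
  exact norm_sum_le he hf hs0 _ (fun j hj => ha (Finset.mem_Ico.1 hj).1) (hs0 n) x

end

theorem t_CPT : S_CPT := by
  rintro H _ _ _ T s ⟨ha, hs0, hlim, e, f, he, hf, hT⟩
  have h : Tendsto (fun n => FR e f s n) atTop (𝓝 T) := by
    rw [tendsto_iff_norm_sub_tendsto_zero]
    apply squeeze_zero (fun n => norm_nonneg _) _ hlim
    intro n
    rw [norm_sub_rev]
    exact norm_sub_FR he hf ha hs0 hT n
  exact isCompactOperator_of_tendsto h (Eventually.of_forall fun n => FR_compact e f s n)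

end Q130.SH.CPT
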