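import Pool.Agent.Q66.SH.Stm

/-!
# The norm of the Schatten class in terms of approximation numbers
-/

set_option autoImplicit false

open Filter Topology
open scoped ENNReal

namespace Q130.SH.NIN

open Pool.Agent.Q66.SH

lemma apx_zero {H : Type} [NormedAddCommGroup H] [InnerProductSpace ℂ H] (T : H →L[ℂ] H) :
    apx 0 T = ‖T‖ₑ := by
  unfold apx
  apply le_antisymm
  · refine (iInf₂_le (0 : H →L[ℂ] H) ⟨⊥, inferInstance, by simp, by simp⟩).trans ?_
    simp
  · refine le_iInf₂ ?_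
    rintro F ⟨W, hW, hr, hF⟩
    have hb : W = ⊥ := by
      rw [← Submodule.finrank_eq_zero (R := ℂ)]
      omega
    have h0 : F = 0 := by
      ext x
      have := hF x
      rw [hb, Submodule.mem_bot] at this
      simpa using this
    rw [h0, sub_zero]

theorem t_NIN (hU : S_SVU) (hL : S_SVL) (hB : S_BA) : S_NIN := by
  intro H _ _ _ p hp T
  have key : ∀ s n, HasSV T s → apx n T = ENNReal.ofReal (s n) := fun s n hs =>
    le_antisymm (hU H T s n hs) (hB H T n (s n) (hL H T s n hs))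
  refine ⟨key, ?_⟩
  rintro r ⟨s, hs, ⟨rfl, rfl⟩ | ⟨hp', hsum, rfl⟩⟩
  · refine ⟨?_, hs.2.1 0⟩
    rw [N, if_pos rfl, ← apx_zero, key s 0 hs]
  · have hpos : 0 < p.toReal := ENNReal.toReal_pos hp hp'
    have hnn : ∀ n, 0 ≤ s n ^ p.toReal := fun n => Real.rpow_nonneg (hs.2.1 n) _
    refine ⟨?_, Real.rpow_nonneg (tsum_nonneg hnn) _⟩
    rw [N, if_neg hp', pw]
    have h1 : ∀ n, apx n T ^ p.toReal = ENNReal.ofReal (s n ^ p.toReal) := by
      intro n
      rw [key s n hs, ENNReal.ofReal_rpow_of_nonneg (hs.2.1 n) hpos.le]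
    rw [tsum_congr h1, ← ENNReal.ofReal_tsum_of_nonneg hnn hsum,
      ENNReal.ofReal_rpow_of_nonneg (tsum_nonneg hnn) (by positivity)]

end Q130.SH.NIN
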